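import Pool.Agent.H46.VIO.Stmts

/-!
# VIO, module NEF: few triples with exponents near `3 h0 / log X`
-/

set_option autoImplicit false

namespace Pool.VIO

open Finset Pool.Agent.H98.ABCR Pool.SHA Pool.ABY

/-! ## The coordinates of a triple -/

private theorem nef_coord_pos {v : ℕ × ℕ} (hv : IsTri v) (s : Fin 3) : 0 < coord v s := by
  obtain ⟨ha, hb, -⟩ := hv
  fin_cases s
  · exact ha
  · exact hb
  · exact Nat.add_pos_left ha _

private theorem nef_nn_pos {v : ℕ × ℕ} (hv : IsTri v) : 0 < nn v := by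
  obtain ⟨ha, hb, -⟩ := hv
  unfold nn
  positivity

private theorem nef_nn_coord (v : ℕ × ℕ) (s : Fin 3) : coord v s ∣ nn v := by
  unfold nn
  fin_cases s
  · exact Dvd.intro _ (mul_assoc _ _ _).symm
  · exact Dvd.dvd.mul_right (Dvd.intro_left _ rfl) _
  · exact Dvd.intro_left _ rfl

private theorem nef_coprime {v : ℕ × ℕ} (hv : IsTri v) {s t : Fin 3} (h : s ≠ t) :
    (coord v s).Coprime (coord v t) := by
  obtain ⟨-, -, hc⟩ := hv
  have h01 : v.1.Coprime v.2 := hc
  have h02 : v.1.Coprime (v.1 + v.2) := by simpa using hc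
  have h12 : v.2.Coprime (v.1 + v.2) := by simpa using hc.symm
  fin_cases s <;> fin_cases t
  · exact absurd rfl h
  · exact h01
  · exact h02
  · exact h01.symm
  · exact absurd rfl h
  · exact h12
  · exact h02.symm
  · exact h12.symm
  · exact absurd rfl h

private theorem nef_jk (i : Fin 3) : ∃ (j k : Fin 3) (σ : ℤ), j ≠ k ∧ j ≠ i ∧ k ≠ i ∧
    (∀ v : ℕ × ℕ, (coord v i : ℤ) ∣ (coord v k : ℤ) - σ * coord v j) ∧
    ∀ v v' : ℕ × ℕ, coord v j = coord v' j → coord v k = coord v' k → v = v' := by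
  have e : ∀ v : ℕ × ℕ, coord v 0 = v.1 ∧ coord v 1 = v.2 ∧ coord v 2 = v.1 + v.2 :=
    fun v => ⟨rfl, rfl, rfl⟩
  fin_cases i
  · refine ⟨1, 2, 1, by decide, by decide, by decide, fun v => ?_, fun v v' h1 h2 => ?_⟩
    · have h : (coord v 2 : ℤ) - 1 * coord v 1 = coord v 0 := by
        rw [(e v).1, (e v).2.1, (e v).2.2]
        push_cast
        ring
      rw [h]
      exact dvd_refl _
    · rw [(e v).2.1, (e v').2.1] at h1
      rw [(e v).2.2, (e v').2.2] at h2
      exact Prod.ext (by omega) h1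
  · refine ⟨0, 2, 1, by decide, by decide, by decide, fun v => ?_, fun v v' h1 h2 => ?_⟩
    · have h : (coord v 2 : ℤ) - 1 * coord v 0 = coord v 1 := by
        rw [(e v).1, (e v).2.1, (e v).2.2]
        push_cast
        ring
      rw [h]
      exact dvd_refl _
    · rw [(e v).1, (e v').1] at h1
      rw [(e v).2.2, (e v').2.2] at h2
      exact Prod.ext h1 (by omega)
  · refine ⟨0, 1, -1, by decide, by decide, by decide, fun v => ?_, fun v v' h1 h2 => ?_⟩
    · have h : (coord v 1 : ℤ) - (-1) * coord v 0 = coord v 2 := by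
        rw [(e v).1, (e v).2.1, (e v).2.2]
        push_cast
        ring
      rw [h]
      exact dvd_refl _
    · rw [(e v).1, (e v').1] at h1
      rw [(e v).2.1, (e v').2.1] at h2
      exact Prod.ext h1 h2

private theorem nef_ne {v v' : ℕ × ℕ} (hv : IsTri v) (hv' : IsTri v') {j k : Fin 3} (hjk : j ≠ k)
    (hinj : coord v j = coord v' j → coord v k = coord v' k → v = v') (hne : v ≠ v') :
    coord v k * coord v' j ≠ coord v j * coord v' k := by
  intro h
  have h1 : coord v k ∣ coord v' k :=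
    (nef_coprime hv hjk.symm).dvd_of_dvd_mul_left (Dvd.intro _ h)
  have h2 : coord v' k ∣ coord v k := by
    refine (nef_coprime hv' hjk.symm).dvd_of_dvd_mul_right ?_
    exact Dvd.intro_left _ h.symm
  have h3 : coord v k = coord v' k := Nat.dvd_antisymm h1 h2
  have h4 : coord v j = coord v' j := by
    have h5 := nef_coord_pos hv' k
    rw [h3, mul_comm] at h
    exact (Nat.eq_of_mul_eq_mul_right h5 h).symm
  exact hne (hinj h4 h3)

private theorem nef_cY {v v' : ℕ × ℕ} {i j k : Fin 3} {σ : ℤ}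
    (hσ : ∀ v : ℕ × ℕ, (coord v i : ℤ) ∣ (coord v k : ℤ) - σ * coord v j) {d : ℕ}
    (h1 : d ∣ coord v i) (h2 : d ∣ coord v' i) :
    (d : ℤ) ∣ ((coord v k * coord v' j : ℕ) : ℤ) - (coord v j * coord v' k : ℕ) := by
  have h3 : (d : ℤ) ∣ (coord v k : ℤ) - σ * coord v j :=
    (Int.natCast_dvd_natCast.2 h1).trans (hσ v)
  have h4 : (d : ℤ) ∣ (coord v' k : ℤ) - σ * coord v' j :=
    (Int.natCast_dvd_natCast.2 h2).trans (hσ v')
  have e : ((coord v k * coord v' j : ℕ) : ℤ) - (coord v j * coord v' k : ℕ) =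
      ((coord v k : ℤ) - σ * coord v j) * coord v' j -
        (coord v j : ℤ) * ((coord v' k : ℤ) - σ * coord v' j) := by
    push_cast
    ring
  rw [e]
  exact dvd_sub (Dvd.dvd.mul_right h3 _) (Dvd.dvd.mul_left h4 _)

/-! ## Logarithms -/

private theorem nef_log_prod (s : Finset ℕ) (hs : ∀ q ∈ s, 0 < q) :
    Real.log ((∏ q ∈ s, q : ℕ) : ℝ) = ∑ q ∈ s, Real.log q := by
  rw [Nat.cast_prod, Real.log_prod]
  intro q hq
  have := hs q hq
  positivity

private theorem nef_log_rad {v : ℕ × ℕ} {X : ℝ} (hX : (RR v : ℝ) ≤ X)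
    (s : Finset ℕ) (hs : s ⊆ (nn v).primeFactors) : ∑ q ∈ s, Real.log q ≤ Real.log X := by
  have hp : ∀ q ∈ (nn v).primeFactors, 0 < q := fun q hq => (Nat.prime_of_mem_primeFactors hq).pos
  have h1 : ∑ q ∈ s, Real.log q ≤ ∑ q ∈ (nn v).primeFactors, Real.log q := by
    refine Finset.sum_le_sum_of_subset_of_nonneg hs fun q hq _ => ?_
    exact Real.log_natCast_nonneg q
  rw [← nef_log_prod _ hp] at h1
  have h2 : (0 : ℝ) < ((∏ q ∈ (nn v).primeFactors, q : ℕ) : ℝ) := by
    exact_mod_cast Finset.prod_pos hp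
  exact h1.trans (Real.log_le_log h2 hX)

private theorem nef_card {C ε : ℝ} (hC : 1 ≤ C) (hε : 0 < ε) : ∃ X0 : ℝ, 3 ≤ X0 ∧
    ∀ (X : ℝ) (K : Finset ℕ), X0 ≤ X → (∀ q ∈ K, 1 ≤ q) → ∑ q ∈ K, Real.log q ≤ Real.log X →
      C ^ (K.card + 1) ≤ X ^ ε := by
  set Q : ℕ := ⌈Real.exp (2 * Real.log C / ε)⌉₊ with hQ
  refine ⟨max 3 (Real.exp (2 * ((Q : ℝ) + 2) * Real.log C / ε)), le_max_left _ _, ?_⟩
  intro X K hX hK hprod
  have hX0 : 0 < X := by linarith [(le_max_left _ _).trans hX]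
  have hl : 2 * ((Q : ℝ) + 2) * Real.log C / ε ≤ Real.log X := by
    rw [Real.le_log_iff_exp_le hX0]
    exact (le_max_right _ _).trans hX
  rw [div_le_iff₀ hε] at hl
  have hlC : 0 ≤ Real.log C := Real.log_nonneg hC
  have h1 : (K.card : ℝ) * Real.log C ≤ ((Q : ℝ) + 1) * Real.log C + ε / 2 * Real.log X := by
    have h2 : ∀ q ∈ K, Real.log C ≤ (if q ≤ Q then Real.log C else 0) + ε / 2 * Real.log q := by
      intro q hq
      have hq1 : (1 : ℝ) ≤ q := by exact_mod_cast hK q hq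
      have hlq := Real.log_nonneg hq1
      split_ifs with h
      · have : 0 ≤ ε / 2 * Real.log q := by positivity
        linarith
      · have h3 : Real.exp (2 * Real.log C / ε) ≤ q :=
          (Nat.le_ceil _).trans (by exact_mod_cast (not_le.1 h).le)
        have h4 : 2 * Real.log C / ε ≤ Real.log q :=
          (Real.le_log_iff_exp_le (by linarith)).2 h3
        rw [div_le_iff₀ hε] at h4
        linarith
    have h3 := Finset.sum_le_sum h2
    rw [Finset.sum_const, nsmul_eq_mul, Finset.sum_add_distrib, ← Finset.mul_sum] at h3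
    have h4 : ∑ q ∈ K, (if q ≤ Q then Real.log C else 0) ≤ ((Q : ℝ) + 1) * Real.log C := by
      rw [← Finset.sum_filter, Finset.sum_const, nsmul_eq_mul]
      have h5 : (K.filter (fun q => q ≤ Q)).card ≤ Q + 1 := by
        calc (K.filter (fun q => q ≤ Q)).card ≤ (Finset.range (Q + 1)).card := by
              refine Finset.card_le_card fun x hx => ?_
              rw [Finset.mem_filter] at hx
              rw [Finset.mem_range]
              omega
          _ = Q + 1 := Finset.card_range _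
      refine mul_le_mul_of_nonneg_right ?_ hlC
      exact_mod_cast h5
    have h6 : ε / 2 * ∑ q ∈ K, Real.log (q : ℝ) ≤ ε / 2 * Real.log X :=
      mul_le_mul_of_nonneg_left hprod (by positivity)
    linarith
  have hC0 : 0 < C := by linarith
  rw [← Real.log_le_log_iff (by positivity) (Real.rpow_pos_of_pos hX0 _), Real.log_pow,
    Real.log_rpow hX0]
  push_cast
  linarith

/-! ## The roots -/

private theorem nef_rt_cop {μ : ℕ × ℕ → ℕ → ℕ} {K : Finset ℕ} (hK : ∀ q ∈ K, q.Prime)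
    {v : ℕ × ℕ} (hμ : ∀ q ∈ K, μ v q = 0) (s : Fin 3) {t : ℕ} (ht : t ∈ K) :
    t.Coprime (rt μ s v) := by
  unfold rt
  refine Nat.Coprime.prod_right fun p hp => ?_
  by_cases hpK : p ∈ K
  · rw [hμ p hpK, pow_zero]
    exact Nat.coprime_one_right t
  · refine Nat.Coprime.pow_right _ ?_
    rw [Nat.coprime_primes (hK t ht) (Nat.prime_of_mem_primeFactors hp)]
    rintro rfl
    exact hpK ht

private theorem nef_rt_pos (μ : ℕ × ℕ → ℕ → ℕ) (s : Fin 3) (v : ℕ × ℕ) : 0 < rt μ s v := by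
  unfold rt
  exact Finset.prod_pos fun p hp => pow_pos (Nat.prime_of_mem_primeFactors hp).pos _

private theorem nef_rt_log {μ : ℕ × ℕ → ℕ → ℕ} (hμ : ∀ v q, μ v q ≤ 1) {v : ℕ × ℕ} (hv : IsTri v)
    {X : ℝ} (hX : (RR v : ℝ) ≤ X) (s : Fin 3) : Real.log (rt μ s v) ≤ Real.log X := by
  have h0 : Real.log (rt μ s v) ≤ ∑ q ∈ (coord v s).primeFactors, Real.log q := by
    unfold rt
    rw [Nat.cast_prod, Real.log_prod]
    · refine Finset.sum_le_sum fun p hp => ?_
      rw [Nat.cast_pow, Real.log_pow]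
      have h1 : ((μ v p : ℕ) : ℝ) ≤ 1 := by exact_mod_cast hμ v p
      have h2 := Real.log_natCast_nonneg p
      nlinarith
    · intro p hp
      have := (Nat.prime_of_mem_primeFactors hp).pos
      positivity
  refine h0.trans (nef_log_rad hX _ ?_)
  exact Nat.primeFactors_mono (nef_nn_coord v s) (nef_nn_pos hv).ne'

/-- exponents `1` outside `K` -/
private def nmu (K : Finset ℕ) : ℕ × ℕ → ℕ → ℕ := fun _ q => if q ∈ K then 0 else 1

private theorem nef_rst {X h0 c τ : ℝ} {K T : Finset ℕ} {i : Fin 3} {v : ℕ × ℕ} {g : ℕ}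
    (hL : 0 < Real.log X) (hτ : 0 ≤ τ) (hh : 0 ≤ h0) (hv : FamN X h0 c τ K T i v)
    (hg : |(g : ℝ) * Real.log X - 3 * h0| ≤ τ * h0) {s : Fin 3} (hs : s ≠ i) :
    rst g K (nmu K) s v ≤ 2 * τ * h0 := by
  have h1 : ∀ p ∈ (coord v s).primeFactors \ K,
      |((coord v s).factorization p : ℝ) - g * nmu K v p| * Real.log p ≤
        2 * τ * h0 / Real.log X * Real.log p := by
    intro p hp
    rw [mem_sdiff] at hp
    refine mul_le_mul_of_nonneg_right ?_ (Real.log_natCast_nonneg p)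
    have h2 := hv.near s hs p hp.1 hp.2
    have h3 : (nmu K v p : ℝ) = 1 := by simp [nmu, hp.2]
    rw [h3, mul_one, le_div_iff₀ hL]
    have h4 : |((coord v s).factorization p : ℝ) - g| * Real.log X =
        |(((coord v s).factorization p : ℝ) * Real.log X - 3 * h0) -
          ((g : ℝ) * Real.log X - 3 * h0)| := by
      have e : (((coord v s).factorization p : ℝ) * Real.log X - 3 * h0) -
          ((g : ℝ) * Real.log X - 3 * h0) =
          (((coord v s).factorization p : ℝ) - g) * Real.log X := by ring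
      rw [e, abs_mul, abs_of_pos hL]
    rw [h4]
    refine (abs_sub _ _).trans ?_
    linarith
  have h5 := Finset.sum_le_sum h1
  rw [← Finset.mul_sum] at h5
  have h6 : ∑ p ∈ (coord v s).primeFactors \ K, Real.log p ≤ Real.log X := by
    refine nef_log_rad hv.rad _ (sdiff_subset.trans ?_)
    exact Nat.primeFactors_mono (nef_nn_coord v s) (nef_nn_pos hv.tri).ne'
  have h7 : 2 * τ * h0 / Real.log X * ∑ p ∈ (coord v s).primeFactors \ K, Real.log p ≤
      2 * τ * h0 / Real.log X * Real.log X :=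
    mul_le_mul_of_nonneg_left h6 (by positivity)
  rw [div_mul_cancel₀ _ hL.ne'] at h7
  unfold rst
  exact h5.trans h7

/-- two triples with the same data contradict TSL -/
private theorem nef_pair (h4 : S_HGT) {c c' δ R G0 τ dp X h0 : ℝ} {K T T' : Finset ℕ}
    {i j k : Fin 3} {σ : ℤ} {g : ℕ} {x m : ℕ → ℕ} {v v' : ℕ × ℕ}
    (hTS : ∀ (g : ℕ) (T : Finset ℕ) (x m : ℕ → ℕ) (Y1 Y2 W1 W2 N D : ℕ) (h0 : ℝ),
      Apx R g T x m Y1 Y2 W1 W2 N D → G0 ≤ g → G0 * g ≤ h0 →
      Real.log N ≤ δ / R * h0 → Real.log D ≤ δ / R * h0 →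
      Real.log W1 ≤ 6 * h0 / g → Real.log W2 ≤ 6 * h0 / g →
      ∑ t ∈ T, (x t : ℝ) * Real.log t < c' * h0)
    (hjk : j ≠ k) (hji : j ≠ i) (hki : k ≠ i)
    (hσ : ∀ v : ℕ × ℕ, (coord v i : ℤ) ∣ (coord v k : ℤ) - σ * coord v j)
    (hinj : ∀ v v' : ℕ × ℕ, coord v j = coord v' j → coord v k = coord v' k → v = v')
    (hL : 0 < Real.log X) (hh0 : 0 < h0) (hτ : 0 ≤ τ) (hdp : 0 ≤ dp)
    (hsmall : 8 * τ + 2 * dp ≤ δ / R)
    (hv : FamN X h0 c τ K T i v) (hv' : FamN X h0 c τ K T i v') (hne : v ≠ v')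
    (hpat : ∀ u ∈ ({v} ∪ {v'} : Finset (ℕ × ℕ)), ∀ u' ∈ ({v} ∪ {v'} : Finset (ℕ × ℕ)),
      ∀ s, ∀ q ∈ K, |((coord u s).factorization q : ℝ) - (coord u' s).factorization q| *
        Real.log q * (K.card + 1) ≤ dp * h0)
    (hg : |(g : ℝ) * Real.log X - 3 * h0| ≤ τ * h0) (hg3 : (g : ℝ) * Real.log X ≤ 3 * h0)
    (hg0 : 0 < g) (hG : G0 ≤ g) (hGh : G0 * g ≤ h0)
    (hT' : T' ⊆ K) (htg : ∀ t ∈ T', ¬ t ∣ g)
    (hmx : ∀ t ∈ T', 1 ≤ m t ∧ m t ≤ x t ∧ (x t : ℝ) ≤ R * g * m t)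
    (hx : ∀ t ∈ T', t ^ x t ∣ coord v i ∧ t ^ x t ∣ coord v' i)
    (hw : ∀ t ∈ T', (t : ℤ) ^ m t ∣ ((rt (nmu K) k v * rt (nmu K) j v' : ℕ) : ℤ) -
      (rt (nmu K) j v * rt (nmu K) k v' : ℕ)) :
    ∑ t ∈ T', (x t : ℝ) * Real.log t < c' * h0 := by
  have hK : ∀ q ∈ K, q.Prime := fun q hq => Nat.prime_of_mem_primeFactors (hv.sub hq)
  have hμ0 : ∀ u : ℕ × ℕ, ∀ q ∈ K, nmu K u q = 0 := fun u q hq => by simp [nmu, hq]
  have hμ1 : ∀ (u : ℕ × ℕ) (q : ℕ), nmu K u q ≤ 1 := fun u q => by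
    unfold nmu
    split_ifs <;> omega
  have hdis : Disjoint ({v} : Finset (ℕ × ℕ)) {v'} := by
    rw [Finset.disjoint_singleton]
    exact hne
  have hA : ∀ u ∈ ({v} ∪ {v'} : Finset (ℕ × ℕ)), IsTri u ∧ (∀ q ∈ K, nmu K u q = 0) ∧
      rst g K (nmu K) j u ≤ 2 * τ * h0 ∧ rst g K (nmu K) k u ≤ 2 * τ * h0 := by
    intro u hu
    rw [Finset.mem_union, Finset.mem_singleton, Finset.mem_singleton] at hu
    have hu' : FamN X h0 c τ K T i u := by
      rcases hu with rfl | rfl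
      · exact hv
      · exact hv'
    exact ⟨hu'.tri, hμ0 u, nef_rst hL hτ hh0.le hu' hg hji, nef_rst hL hτ hh0.le hu' hg hki⟩
  obtain ⟨N, D, hN, hD, hND, heq, hlN, hlD⟩ := h4 g K (nmu K) j k {v} {v'} (2 * τ * h0) (dp * h0)
    (by positivity) (by positivity) hjk hK hdis rfl hA hpat
  simp only [Finset.prod_singleton, Finset.card_singleton, Nat.cast_one, one_mul] at heq hlN hlD
  have hcoef : 4 * (2 * τ * h0) + 2 * (dp * h0) ≤ δ / R * h0 := by
    have := mul_le_mul_of_nonneg_right hsmall hh0.le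
    linarith
  have hgr : (0 : ℝ) < g := by exact_mod_cast hg0
  have hlW : ∀ (u u' : ℕ × ℕ) (s s' : Fin 3), FamN X h0 c τ K T i u → FamN X h0 c τ K T i u' →
      Real.log ((rt (nmu K) s u * rt (nmu K) s' u' : ℕ) : ℝ) ≤ 6 * h0 / g := by
    intro u u' s s' hu hu'
    have p1 := nef_rt_pos (nmu K) s u
    have p2 := nef_rt_pos (nmu K) s' u'
    rw [Nat.cast_mul, Real.log_mul (by positivity) (by positivity), le_div_iff₀ hgr]
    have l1 := nef_rt_log hμ1 hu.tri hu.rad s
    have l2 := nef_rt_log hμ1 hu'.tri hu'.rad s'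
    have l3 := mul_le_mul_of_nonneg_right (add_le_add l1 l2) hgr.le
    linarith
  have hdv : ∀ t ∈ T', ∀ u : ℕ × ℕ, IsTri u → t ^ x t ∣ coord u i → ∀ s, s ≠ i →
      ¬ t ∣ coord u s := by
    intro t ht u hu hd s hs hts
    have h1 : t ∣ coord u i :=
      (dvd_pow_self t (Nat.one_le_iff_ne_zero.1 ((hmx t ht).1.trans (hmx t ht).2.1))).trans hd
    have h2 : t ∣ 1 := by
      rw [← Nat.coprime_iff_gcd_eq_one.1 (nef_coprime hu hs)]
      exact Nat.dvd_gcd hts h1
    exact (hK t (hT' ht)).one_lt.ne' (Nat.dvd_one.1 h2)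
  have hdr : ∀ t ∈ T', ∀ (u : ℕ × ℕ) (s : Fin 3), ¬ t ∣ rt (nmu K) s u := by
    intro t ht u s hts
    have h1 := nef_rt_cop hK (hμ0 u) s (hT' ht)
    have h2 : t ∣ 1 := by
      rw [← Nat.coprime_iff_gcd_eq_one.1 h1]
      exact Nat.dvd_gcd (dvd_refl t) hts
    exact (hK t (hT' ht)).one_lt.ne' (Nat.dvd_one.1 h2)
  have hmul : ∀ t ∈ T', ∀ a b : ℕ, ¬ t ∣ a → ¬ t ∣ b → ¬ t ∣ a * b := by
    intro t ht a b ha hb hab
    rcases (hK t (hT' ht)).dvd_mul.1 hab with h | h
    · exact ha h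
    · exact hb h
  refine hTS g T' x m (coord v k * coord v' j) (coord v j * coord v' k)
    (rt (nmu K) k v * rt (nmu K) j v') (rt (nmu K) j v * rt (nmu K) k v') N D h0
    ⟨?_, ?_, ?_, ?_, hN, hD, hND, heq, ?_, ?_, htg, ?_, hmx, hw, ?_⟩ hG hGh (hlN.trans hcoef)
    (hlD.trans hcoef) (hlW v v' k j hv hv') (hlW v v' j k hv hv')
  · exact Nat.mul_pos (nef_coord_pos hv.tri k) (nef_coord_pos hv'.tri j)
  · exact Nat.mul_pos (nef_coord_pos hv.tri j) (nef_coord_pos hv'.tri k)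
  · exact Nat.mul_pos (nef_rt_pos _ _ _) (nef_rt_pos _ _ _)
  · exact Nat.mul_pos (nef_rt_pos _ _ _) (nef_rt_pos _ _ _)
  · exact nef_ne hv.tri hv'.tri hjk (hinj v v') hne
  · exact fun t ht => hK t (hT' ht)
  · intro t ht
    obtain ⟨hx1, hx2⟩ := hx t ht
    refine ⟨?_, ?_, ?_, ?_⟩
    · exact hmul t ht _ _ (hdv t ht v hv.tri hx1 k hki) (hdv t ht v' hv'.tri hx2 j hji)
    · exact hmul t ht _ _ (hdv t ht v hv.tri hx1 j hji) (hdv t ht v' hv'.tri hx2 k hki)
    · exact hmul t ht _ _ (hdr t ht v k) (hdr t ht v' j)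
    · exact hmul t ht _ _ (hdr t ht v j) (hdr t ht v' k)
  · intro t ht
    have h5 := nef_cY hσ (hx t ht).1 (hx t ht).2
    rw [Nat.cast_pow] at h5
    exact h5

private theorem nef_kl_le {S : Finset ℕ} {n : ℕ} (x : ℕ → ℕ)
    (hx : ∀ t ∈ S, x t ≤ n.factorization t) :
    ∑ t ∈ S, (x t : ℝ) * Real.log t ≤ Real.log n := by
  have h1 : ∑ t ∈ S, (x t : ℝ) * Real.log t ≤
      ∑ t ∈ S, (n.factorization t : ℝ) * Real.log t := by
    refine Finset.sum_le_sum fun t ht => ?_
    refine mul_le_mul_of_nonneg_right ?_ (Real.log_natCast_nonneg t)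
    exact_mod_cast hx t ht
  have h2 : ∑ t ∈ S, (n.factorization t : ℝ) * Real.log t =
      ∑ t ∈ S.filter (fun t => t ∈ n.primeFactors), (n.factorization t : ℝ) * Real.log t := by
    symm
    refine Finset.sum_filter_of_ne fun t _ hne => ?_
    by_contra h
    apply hne
    rw [← Nat.support_factorization, Finsupp.notMem_support_iff] at h
    rw [h, Nat.cast_zero, zero_mul]
  have h3 : ∑ t ∈ S.filter (fun t => t ∈ n.primeFactors), (n.factorization t : ℝ) * Real.log t ≤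
      ∑ t ∈ n.primeFactors, (n.factorization t : ℝ) * Real.log t := by
    refine Finset.sum_le_sum_of_subset_of_nonneg (fun t ht => (Finset.mem_filter.1 ht).2) ?_
    intro t _ _
    exact mul_nonneg (Nat.cast_nonneg _) (Real.log_natCast_nonneg t)
  have h4 : Real.log n = ∑ t ∈ n.primeFactors, (n.factorization t : ℝ) * Real.log t := by
    rw [Real.log_nat_eq_sum_factorization, Finsupp.sum, Nat.support_factorization]
  rw [h4]
  exact h1.trans (h2.trans_le h3)

/-- pigeonhole in `ZMod M` -/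
private theorem nef_pig {F : Finset (ℕ × ℕ)} {M : ℕ} (hM : 0 < M) (u w : ℕ × ℕ → ℕ)
    (hc : ∀ v ∈ F, (u v).Coprime M) (hcard : M < F.card) :
    ∃ v ∈ F, ∃ v' ∈ F, v ≠ v' ∧ (M : ℤ) ∣ ((w v * u v' : ℕ) : ℤ) - (u v * w v' : ℕ) := by
  have : NeZero M := ⟨hM.ne'⟩
  obtain ⟨v, hv, v', hv', hne, hf⟩ := Finset.exists_ne_map_eq_of_card_lt_of_maps_to
    (t := (Finset.univ : Finset (ZMod M)))
    (by rw [Finset.card_univ, ZMod.card]; exact hcard)
    (f := fun v => (w v : ZMod M) * ((u v : ZMod M))⁻¹) (fun _ _ => Finset.mem_coe.2 (Finset.mem_univ _))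
  refine ⟨v, hv, v', hv', hne, ?_⟩
  have h1 := ZMod.coe_mul_inv_eq_one (u v) (hc v hv)
  have h2 := ZMod.coe_mul_inv_eq_one (u v') (hc v' hv')
  have hf' : (w v : ZMod M) * ((u v : ZMod M))⁻¹ = (w v' : ZMod M) * ((u v' : ZMod M))⁻¹ := hf
  have h3 : (w v : ZMod M) * u v' = (u v : ZMod M) * w v' := by
    calc (w v : ZMod M) * u v' = (w v : ZMod M) * u v' * ((u v : ZMod M) * ((u v : ZMod M))⁻¹) := by
          rw [h1, mul_one]
      _ = ((w v : ZMod M) * ((u v : ZMod M))⁻¹) * (u v' * u v) := by ring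
      _ = ((w v' : ZMod M) * ((u v' : ZMod M))⁻¹) * (u v' * u v) := by rw [hf']
      _ = (u v : ZMod M) * w v' * ((u v' : ZMod M) * ((u v' : ZMod M))⁻¹) := by ring
      _ = (u v : ZMod M) * w v' := by rw [h2, mul_one]
  rw [← ZMod.intCast_zmod_eq_zero_iff_dvd]
  push_cast
  rw [h3, sub_self]

/-- NEF -/
theorem nef_thm (h1 : S_TSL) (h2 : S_GCH) (h3 : S_PAT) (h4 : S_HGT) : S_NEF := by
  intro c ε hc hc1 hε
  obtain ⟨δ, hδ, hT⟩ := h1 (c / 6) 6 (by positivity) (by norm_num)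
  obtain ⟨R, hR⟩ : ∃ R : ℝ, R = 8 / ε + 1 := ⟨_, rfl⟩
  have h8 : 0 < 8 / ε := by positivity
  have hR1 : 1 ≤ R := by linarith
  have hR0 : 0 < R := by linarith
  obtain ⟨G0, hG0, hTS⟩ := hT R hR1
  obtain ⟨dp, hdp⟩ : ∃ dp : ℝ, dp = min (c / 2) (δ / (8 * R)) := ⟨_, rfl⟩
  have hdp0 : 0 < dp := by rw [hdp]; exact lt_min (by positivity) (by positivity)
  have hdp1 : dp ≤ c / 2 := by rw [hdp]; exact min_le_left _ _
  have hdp2 : dp ≤ δ / (8 * R) := by rw [hdp]; exact min_le_right _ _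
  obtain ⟨Cp, hCp, hP⟩ := h3 dp hdp0
  obtain ⟨X1, hX1, hcard⟩ := nef_card hCp (show 0 < ε / 2 by positivity)
  obtain ⟨τ, hτ⟩ : ∃ τ : ℝ, τ = min 1 (δ / (16 * R)) := ⟨_, rfl⟩
  have hτ0 : 0 < τ := by rw [hτ]; exact lt_min (by positivity) (by positivity)
  have hτ1 : τ ≤ 1 := by rw [hτ]; exact min_le_left _ _
  have hτ2 : τ ≤ δ / (16 * R) := by rw [hτ]; exact min_le_right _ _
  have hsmall : 8 * τ + 2 * dp ≤ δ / R := by
    have e1 : δ / (16 * R) = δ / R / 16 := by rw [mul_comm, div_mul_eq_div_div]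
    have e2 : δ / (8 * R) = δ / R / 8 := by rw [mul_comm, div_mul_eq_div_div]
    have e3 : 0 < δ / R := by positivity
    rw [e1] at hτ2
    rw [e2] at hdp2
    linarith
  refine ⟨τ, max (max G0 1) (max (20 / τ) ε), max X1 (Real.exp (3 * G0)), hτ0, hτ1, ?_, ?_, ?_⟩
  · exact (le_max_right _ _).trans (le_max_left _ _)
  · exact hX1.trans (le_max_left _ _)
  intro X h0 K T i F hTK hX hκ hF
  have hX3 : 3 ≤ X := hX1.trans ((le_max_left _ _).trans hX)
  have hX0 : 0 < X := by linarith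
  have hL1 : 1 ≤ Real.log X := by
    rw [Real.le_log_iff_exp_le hX0]
    linarith [Real.exp_one_lt_d9]
  have hL0 : 0 < Real.log X := by linarith
  have hLG : 3 * G0 ≤ Real.log X := by
    rw [Real.le_log_iff_exp_le hX0]
    exact (le_max_right _ _).trans hX
  obtain ⟨κ, hκd⟩ : ∃ κ, κ = h0 / Real.log X := ⟨_, rfl⟩
  have hκL : κ * Real.log X = h0 := by rw [hκd, div_mul_cancel₀ _ hL0.ne']
  have hκ0 : max (max G0 1) (max (20 / τ) ε) ≤ κ := by
    rw [hκd, le_div_iff₀ hL0]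
    exact hκ
  have hκG : G0 ≤ κ := ((le_max_left _ _).trans (le_max_left _ _)).trans hκ0
  have hκ1 : 1 ≤ κ := ((le_max_right _ _).trans (le_max_left _ _)).trans hκ0
  have hκτ : 20 / τ ≤ κ := ((le_max_left _ _).trans (le_max_right _ _)).trans hκ0
  have hκε : ε ≤ κ := ((le_max_right _ _).trans (le_max_right _ _)).trans hκ0
  have hκp : 0 < κ := by linarith
  have hh0 : 0 < h0 := by
    rw [← hκL]
    positivity
  rcases F.eq_empty_or_nonempty with rfl | ⟨u0, hu0⟩
  · rw [Finset.card_empty, Nat.cast_zero]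
    positivity
  have hK : ∀ q ∈ K, q.Prime := fun q hq => Nat.prime_of_mem_primeFactors ((hF u0 hu0).sub hq)
  have hTpos : ∀ t ∈ T, 0 < t := fun t ht => (hK t (hTK ht)).pos
  obtain ⟨P, hPd⟩ : ∃ P : ℕ, P = ∏ t ∈ T, t := ⟨_, rfl⟩
  have hPpos : 0 < P := by rw [hPd]; exact Finset.prod_pos hTpos
  have hPr : (0 : ℝ) < P := by exact_mod_cast hPpos
  have hPlog : Real.log P = ∑ t ∈ T, Real.log t := by rw [hPd]; exact nef_log_prod T hTpos
  rw [← hPd]
  obtain ⟨n, cl, hn, hcl1, hcl2⟩ := hP K h0 hK hh0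
  obtain ⟨j, k, σ, hjk, hji, hki, hσ, hinj⟩ := nef_jk i
  have key : ∀ F' : Finset (ℕ × ℕ), F' ⊆ F → (∀ v ∈ F', ∀ v' ∈ F', cl v = cl v') →
      (F'.card : ℝ) ≤ (P : ℝ) * X ^ (ε / 4) := by
    intro F' hF' hcl
    rcases F'.eq_empty_or_nonempty with rfl | hne
    · rw [Finset.card_empty, Nat.cast_zero]
      positivity
    have hmin : ∀ t : ℕ, ∃ w ∈ F', ∀ w' ∈ F',
        (coord w i).factorization t ≤ (coord w' i).factorization t :=
      fun t => Finset.exists_min_image F' _ hne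
    choose w hw hwmin using hmin
    obtain ⟨x, hx⟩ : ∃ x : ℕ → ℕ, ∀ t, x t = (coord (w t) i).factorization t :=
      ⟨_, fun _ => rfl⟩
    have hxle : ∀ u ∈ F', ∀ t, x t ≤ (coord u i).factorization t := fun u hu t => by
      rw [hx t]
      exact hwmin t u hu
    obtain ⟨v0, hv0⟩ := hne
    have hFv0 := hF v0 (hF' hv0)
    have hpatt : ∀ u ∈ F', ∀ u' ∈ F', ∀ s, ∀ q ∈ K,
        |((coord u s).factorization q : ℝ) - (coord u' s).factorization q| * Real.log q *
          (K.card + 1) ≤ dp * h0 := fun u hu u' hu' =>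
      hcl2 u u' (hF u (hF' hu)).tri (hF u' (hF' hu')).tri (hF u (hF' hu)).up (hF u' (hF' hu')).up
        (hcl u hu u' hu')
    have hKc : (0 : ℝ) < (K.card : ℝ) + 1 := by positivity
    have hwt : c / 2 * h0 ≤ ∑ t ∈ T, (x t : ℝ) * Real.log t := by
      have h5 : ∀ t ∈ T, ((coord v0 i).factorization t : ℝ) * Real.log t -
          dp * h0 / (K.card + 1) ≤ (x t : ℝ) * Real.log t := by
        intro t ht
        have h6 := hpatt v0 hv0 (w t) (hw t) i t (hTK ht)
        rw [← hx t, ← le_div_iff₀ hKc] at h6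
        have h8 := le_abs_self (((coord v0 i).factorization t : ℝ) - x t)
        have h9 := Real.log_natCast_nonneg t
        have h10 := mul_le_mul_of_nonneg_right h8 h9
        linarith
      have h10 := Finset.sum_le_sum h5
      rw [Finset.sum_sub_distrib, Finset.sum_const, nsmul_eq_mul] at h10
      have h11 := hFv0.wt
      unfold kl at h11
      have h12 : (T.card : ℝ) * (dp * h0 / (K.card + 1)) ≤ dp * h0 := by
        rw [← mul_div_assoc, div_le_iff₀ hKc, mul_comm]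
        have h13 : (T.card : ℝ) ≤ K.card := by exact_mod_cast Finset.card_le_card hTK
        exact mul_le_mul_of_nonneg_left (by linarith) (by positivity)
      have h14 := mul_le_mul_of_nonneg_right hdp1 hh0.le
      linarith
    obtain ⟨T1, hT1⟩ : ∃ T1, T1 = T.filter (fun t => 1 ≤ x t) := ⟨_, rfl⟩
    have hwt1 : ∑ t ∈ T1, (x t : ℝ) * Real.log t = ∑ t ∈ T, (x t : ℝ) * Real.log t := by
      rw [hT1]
      refine Finset.sum_filter_of_ne fun t _ hne => ?_
      by_contra h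
      apply hne
      have h0 : x t = 0 := by omega
      rw [h0, Nat.cast_zero, zero_mul]
    have hT1K : T1 ⊆ T := by rw [hT1]; exact Finset.filter_subset _ _
    obtain ⟨g, hg1, hg2, hg3⟩ := h2 T1 (fun t => (x t : ℝ) * Real.log t) (3 * κ) (τ / 3)
      (fun t ht => ⟨hK t (hTK (hT1K ht)),
        mul_nonneg (Nat.cast_nonneg _) (Real.log_natCast_nonneg t)⟩)
      (by positivity) (by linarith) (by
        rw [div_le_iff₀ hτ0] at hκτ
        linarith)
    obtain ⟨T', hT'⟩ : ∃ T', T' = T1.filter (fun t => ¬ t ∣ g) := ⟨_, rfl⟩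
    have hT'1 : T' ⊆ T1 := by rw [hT']; exact Finset.filter_subset _ _
    have hT'T : T' ⊆ T := hT'1.trans hT1K
    have htg : ∀ t ∈ T', ¬ t ∣ g := fun t ht => by
      rw [hT', Finset.mem_filter] at ht
      exact ht.2
    have hx1 : ∀ t ∈ T', 1 ≤ x t := fun t ht => by
      have h5 := hT'1 ht
      rw [hT1, Finset.mem_filter] at h5
      exact h5.2
    rw [← hT', hwt1] at hg3
    -- the number `g`
    have hgκ : 2 * κ ≤ g := by nlinarith
    have hgκ' : κ ≤ g := by linarith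
    have hgp : (0 : ℝ) < g := by linarith
    have hg0 : 0 < g := by exact_mod_cast hgp
    have hgL3 : (g : ℝ) * Real.log X ≤ 3 * h0 := by
      have h5 := mul_le_mul_of_nonneg_right hg2 hL0.le
      rw [← hκL]
      linarith
    have hgL : |(g : ℝ) * Real.log X - 3 * h0| ≤ τ * h0 := by
      have h5 := mul_le_mul_of_nonneg_right hg1 hL0.le
      have h6 : (1 - τ / 3) * (3 * κ) * Real.log X = (3 - τ) * h0 := by
        rw [← hκL]
        ring
      rw [h6] at h5
      have h7 : 0 < τ * h0 := by positivity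
      rw [abs_le]
      constructor <;> linarith
    have hGh : G0 * g ≤ h0 := by
      have h5 : G0 * g ≤ G0 * (3 * κ) := mul_le_mul_of_nonneg_left hg2 (by linarith)
      have h6 : (3 * G0) * κ ≤ Real.log X * κ := mul_le_mul_of_nonneg_right hLG hκp.le
      rw [← hκL]
      linarith
    -- the multiplicities
    obtain ⟨m, hm⟩ : ∃ m : ℕ → ℕ, ∀ t, m t = ⌈ε / 8 * x t / κ⌉₊ := ⟨_, fun _ => rfl⟩
    have hmx : ∀ t ∈ T', 1 ≤ m t ∧ m t ≤ x t ∧ (x t : ℝ) ≤ R * g * m t := by
      intro t ht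
      have hxt : (1 : ℝ) ≤ x t := by exact_mod_cast hx1 t ht
      have hxt0 : (0 : ℝ) < x t := by linarith
      refine ⟨?_, ?_, ?_⟩
      · rw [hm t]
        exact Nat.one_le_ceil_iff.2 (by positivity)
      · rw [hm t]
        refine Nat.ceil_le.2 ?_
        rw [div_le_iff₀ hκp]
        nlinarith
      · have a1 : ε / 8 * x t / κ ≤ m t := by
          rw [hm t]
          exact Nat.le_ceil _
        have a2 : (x t : ℝ) = (8 / ε) * κ * (ε / 8 * x t / κ) := by
          field_simp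
        have a3 : (8 / ε) * κ ≤ R * g :=
          mul_le_mul (by linarith) hgκ' hκp.le hR0.le
        calc (x t : ℝ) = (8 / ε) * κ * (ε / 8 * x t / κ) := a2
          _ ≤ R * g * m t := mul_le_mul a3 a1 (by positivity) (by positivity)
    obtain ⟨M, hMd⟩ : ∃ M : ℕ, M = ∏ t ∈ T', t ^ m t := ⟨_, rfl⟩
    have hMpos : 0 < M := by
      rw [hMd]
      exact Finset.prod_pos fun t ht => pow_pos (hTpos t (hT'T ht)) _
    have hMr : (0 : ℝ) < M := by exact_mod_cast hMpos
    have hMlog : Real.log M ≤ ε / 4 * Real.log X + Real.log P := by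
      have b1 : Real.log M = ∑ t ∈ T', (m t : ℝ) * Real.log t := by
        rw [hMd, Nat.cast_prod, Real.log_prod]
        · refine Finset.sum_congr rfl fun t _ => ?_
          rw [Nat.cast_pow, Real.log_pow]
        · intro t ht
          have := hTpos t (hT'T ht)
          positivity
      have b2 : ∀ t ∈ T', (m t : ℝ) * Real.log t ≤
          ε / 8 / κ * ((x t : ℝ) * Real.log t) + Real.log t := by
        intro t _
        have b3 : (m t : ℝ) ≤ ε / 8 * x t / κ + 1 := by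
          rw [hm t]
          exact (Nat.ceil_lt_add_one (by positivity)).le
        have b4 := mul_le_mul_of_nonneg_right b3 (Real.log_natCast_nonneg t)
        refine b4.trans (le_of_eq ?_)
        ring
      have b5 := Finset.sum_le_sum b2
      rw [Finset.sum_add_distrib, ← Finset.mul_sum, ← b1] at b5
      have b6 : ∑ t ∈ T', (x t : ℝ) * Real.log t ≤ 2 * h0 := by
        have b7 := nef_kl_le (S := T') (n := coord v0 i) x fun t _ => hxle v0 hv0 t
        have b8 : Real.log (coord v0 i : ℝ) ≤ hh v0 := by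
          unfold hh
          refine Real.log_le_log (by exact_mod_cast nef_coord_pos hFv0.tri i) ?_
          have b9 : coord v0 i ≤ v0.1 + v0.2 := by
            fin_cases i
            · exact Nat.le_add_right _ _
            · exact Nat.le_add_left _ _
            · exact le_refl _
          exact_mod_cast b9
        exact b7.trans (b8.trans hFv0.up)
      have b10 : ε / 8 / κ * ∑ t ∈ T', (x t : ℝ) * Real.log t ≤ ε / 8 / κ * (2 * h0) :=
        mul_le_mul_of_nonneg_left b6 (by positivity)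
      have b11 : ε / 8 / κ * (2 * h0) = ε / 4 * Real.log X := by
        rw [← hκL]
        field_simp
        ring
      have b12 : ∑ t ∈ T', Real.log (t : ℝ) ≤ Real.log P := by
        rw [hPlog]
        exact Finset.sum_le_sum_of_subset_of_nonneg hT'T fun t _ _ => Real.log_natCast_nonneg t
      linarith
    have hMle : (M : ℝ) ≤ (P : ℝ) * X ^ (ε / 4) := by
      have hXp : 0 < X ^ (ε / 4) := Real.rpow_pos_of_pos hX0 _
      rw [← Real.log_le_log_iff hMr (by positivity), Real.log_mul hPr.ne' hXp.ne',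
        Real.log_rpow hX0]
      linarith
    by_contra hcon
    rw [not_le] at hcon
    have hMc : M < F'.card := by exact_mod_cast hMle.trans_lt hcon
    have hμ0 : ∀ u : ℕ × ℕ, ∀ q ∈ K, nmu K u q = 0 := fun u q hq => by simp [nmu, hq]
    obtain ⟨v, hv, v', hv', hvv, hdvd⟩ := nef_pig hMpos (rt (nmu K) j) (rt (nmu K) k) (fun u _ => by
      rw [hMd]
      refine Nat.Coprime.prod_right fun t ht => Nat.Coprime.pow_right _ ?_
      exact (nef_rt_cop hK (hμ0 u) j (hTK (hT'T ht))).symm) hMc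
    have hmem : ∀ u ∈ ({v} ∪ {v'} : Finset (ℕ × ℕ)), u ∈ F' := by
      intro u hu
      rw [Finset.mem_union, Finset.mem_singleton, Finset.mem_singleton] at hu
      rcases hu with rfl | rfl
      · exact hv
      · exact hv'
    have hfin := nef_pair h4 hTS hjk hji hki hσ hinj hL0 hh0 hτ0.le hdp0.le hsmall
      (hF v (hF' hv)) (hF v' (hF' hv')) hvv
      (fun u hu u' hu' => hpatt u (hmem u hu) u' (hmem u' hu')) hgL hgL3 hg0 (hκG.trans hgκ') hGh
      (hT'T.trans hTK) htg hmx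
      (fun t ht => ⟨(pow_dvd_pow t (hxle v hv t)).trans (Nat.ordProj_dvd _ _),
        (pow_dvd_pow t (hxle v' hv' t)).trans (Nat.ordProj_dvd _ _)⟩)
      (fun t ht => by
        refine Dvd.dvd.trans ?_ hdvd
        rw [hMd]
        have h5 : t ^ m t ∣ ∏ t ∈ T', t ^ m t := Finset.dvd_prod_of_mem (fun t => t ^ m t) ht
        have h6 := Int.natCast_dvd_natCast.2 h5
        rw [Nat.cast_pow] at h6
        exact h6)
    linarith
  -- the sum over the classes
  have hfib : (F.card : ℝ) ≤ n * ((P : ℝ) * X ^ (ε / 4)) := by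
    have e : F.card = ∑ b ∈ range n, (F.filter (fun v => cl v = b)).card :=
      Finset.card_eq_sum_card_fiberwise fun v hv =>
        Finset.mem_coe.2 (Finset.mem_range.2 (hcl1 v (hF v hv).tri (hF v hv).up))
    rw [e, Nat.cast_sum]
    calc ∑ b ∈ range n, ((F.filter (fun v => cl v = b)).card : ℝ)
        ≤ ∑ _b ∈ range n, ((P : ℝ) * X ^ (ε / 4)) := by
          refine Finset.sum_le_sum fun b _ => key _ (Finset.filter_subset _ _) ?_
          intro v hv v' hv'
          rw [(Finset.mem_filter.1 hv).2, (Finset.mem_filter.1 hv').2]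
      _ = n * ((P : ℝ) * X ^ (ε / 4)) := by
          rw [Finset.sum_const, Finset.card_range, nsmul_eq_mul]
  have hn2 : (n : ℝ) ≤ X ^ (ε / 2) := hn.trans (hcard X K ((le_max_left _ _).trans hX)
    (fun q hq => (hK q hq).pos) (nef_log_rad (hF u0 hu0).rad K (hF u0 hu0).sub))
  have hXp : 0 < X ^ (ε / 4) := Real.rpow_pos_of_pos hX0 _
  calc (F.card : ℝ) ≤ n * ((P : ℝ) * X ^ (ε / 4)) := hfib
    _ ≤ X ^ (ε / 2) * ((P : ℝ) * X ^ (ε / 4)) := mul_le_mul_of_nonneg_right hn2 (by positivity)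
    _ = (P : ℝ) * (X ^ (ε / 2) * X ^ (ε / 4)) := by ring
    _ = (P : ℝ) * X ^ (ε / 2 + ε / 4) := by rw [Real.rpow_add hX0]
    _ ≤ (P : ℝ) * X ^ ε := by
        refine mul_le_mul_of_nonneg_left ?_ hPr.le
        exact Real.rpow_le_rpow_of_exponent_le (by linarith) (by linarith)

end Pool.VIO
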